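import Mathlib

/-!
Infinite convolutions of probability measures on the circle which are close to the Dirac mass at 0.
-/

set_option autoImplicit false

open MeasureTheory Filter Topology Set
open scoped ENNReal

namespace Pool.Agent.TH741.FU

abbrev T := UnitAddCircle

/-- the sequences with summable norms -/
def G : Set (ℕ → T) := {ω | ∑' j, ‖ω j‖ₑ ≠ ⊤}

lemma measurableSet_G : MeasurableSet G := by
  have h : Measurable fun ω : ℕ → T => ∑' j, ‖ω j‖ₑ :=
    Measurable.ennreal_tsum fun j => (measurable_pi_apply j).enorm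
  exact (h (measurableSet_singleton ⊤)).compl

lemma mem_G {ω : ℕ → T} : ω ∈ G ↔ Summable fun j => ‖ω j‖ := by
  have h : (∑' j, ‖ω j‖ₑ) = ∑' j, ((‖ω j‖₊ : NNReal) : ENNReal) := rfl
  rw [G, mem_setOf_eq, h, ENNReal.tsum_coe_ne_top_iff_summable, ← NNReal.summable_coe]
  rfl

open Classical in
/-- the sum, `0` outside `G` -/
noncomputable def X (ω : ℕ → T) : T := G.indicator (fun ω => ∑' j, ω j) ω

lemma hasSum_X {ω : ℕ → T} (h : ω ∈ G) : HasSum ω (X ω) := by
  rw [X, indicator_of_mem h]
  exact (Summable.of_norm (mem_G.1 h)).hasSum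

lemma measurable_X : Measurable X := by
  have hS : ∀ n : ℕ, Measurable (G.indicator fun ω : ℕ → T => ∑ j ∈ Finset.range n, ω j) := by
    intro n
    refine Measurable.indicator ?_ measurableSet_G
    exact Finset.measurable_fun_sum _ fun j _ => measurable_pi_apply j
  refine measurable_of_tendsto_metrizable hS ?_
  rw [tendsto_pi_nhds]
  intro ω
  by_cases h : ω ∈ G
  · simp only [indicator_of_mem h]
    exact (hasSum_X h).tendsto_sum_nat
  · simp only [indicator_of_notMem h, X]
    exact tendsto_const_nhds

lemma X_smul {ω : ℕ → T} (h : ω ∈ G) (n : ℕ) : X (fun j => n • ω j) = n • X ω := by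
  have h1 : HasSum (fun j => n • ω j) (n • X ω) := (hasSum_X h).const_smul n
  have h2 : (fun j => n • ω j) ∈ G := by
    rw [mem_G] at h ⊢
    refine Summable.of_nonneg_of_le (fun _ => norm_nonneg _) (fun j => ?_) (h.mul_left (n : ℝ))
    exact norm_nsmul_le
  exact (hasSum_X h2).unique h1

lemma X_update {ω : ℕ → T} (h : ω ∈ G) (j : ℕ) (t : T) :
    X (Function.update ω j t) = t - ω j + X ω := by
  have h1 : HasSum (Function.update ω j t) (t - ω j + X ω) := (hasSum_X h).update j t
  have h2 : Function.update ω j t ∈ G := by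
    rw [mem_G] at h ⊢
    have e : (fun i => ‖Function.update ω j t i‖) = Function.update (fun i => ‖ω i‖) j ‖t‖ := by
      funext i
      by_cases hi : i = j
      · subst hi; simp
      · simp [Function.update_of_ne hi]
    rw [e]
    exact h.update j _
  exact (hasSum_X h2).unique h1

variable (μ : ℕ → Measure T) [∀ j, IsProbabilityMeasure (μ j)]

/-- resampling one coordinate -/
lemma map_update (j : ℕ) :
    ((μ j).prod (Measure.infinitePi μ)).map (fun z : T × (ℕ → T) => Function.update z.2 j z.1) =
      Measure.infinitePi μ := by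
  classical
  have hm : Measurable fun z : T × (ℕ → T) => Function.update z.2 j z.1 := by
    rw [measurable_pi_iff]
    intro i
    by_cases hi : i = j
    · subst hi; simpa using measurable_fst
    · simp only [Function.update_of_ne hi]
      exact (measurable_pi_apply i).comp measurable_snd
  refine Measure.eq_infinitePi _ fun s t ht => ?_
  rw [Measure.map_apply hm (.pi s.countable_toSet fun _ _ => ht _)]
  by_cases hj : j ∈ s
  · have e : (fun z : T × (ℕ → T) => Function.update z.2 j z.1) ⁻¹' (Set.pi s t) =
        (t j) ×ˢ (Set.pi (s.erase j : Finset ℕ) t) := by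
      ext z
      simp only [mem_preimage, Set.mem_pi, Finset.mem_coe, mem_prod, Finset.mem_erase]
      constructor
      · intro h
        refine ⟨by simpa using h j hj, fun i hi => ?_⟩
        have := h i hi.2
        rwa [Function.update_of_ne hi.1] at this
      · rintro ⟨h1, h2⟩ i hi
        by_cases hij : i = j
        · subst hij; simpa using h1
        · rw [Function.update_of_ne hij]; exact h2 i ⟨hij, hi⟩
    rw [e, Measure.prod_prod, Measure.infinitePi_pi _ fun i _ => ht i, ← Finset.mul_prod_erase s _ hj]
  · have e : (fun z : T × (ℕ → T) => Function.update z.2 j z.1) ⁻¹' (Set.pi s t) =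
        (univ : Set T) ×ˢ (Set.pi s t) := by
      ext z
      simp only [mem_preimage, Set.mem_pi, Finset.mem_coe, mem_prod, mem_univ, true_and]
      refine forall₂_congr fun i hi => ?_
      rw [Function.update_of_ne]
      rintro rfl
      exact hj hi
    rw [e, Measure.prod_prod, Measure.infinitePi_pi _ fun i _ => ht i]
    simp

variable {μ}

lemma lintegral_sum (μ : ℕ → Measure T) [∀ j, IsProbabilityMeasure (μ j)] :
    ∫⁻ ω, ∑' j, ‖ω j‖ₑ ∂(Measure.infinitePi μ) = ∑' j, ∫⁻ x, ‖x‖ₑ ∂(μ j) := by
  rw [lintegral_tsum fun j => ((measurable_pi_apply j).enorm).aemeasurable]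
  congr 1
  funext j
  have h := Measure.infinitePi_map_eval μ j
  conv_rhs => rw [← h]
  rw [lintegral_map measurable_enorm (measurable_pi_apply j)]

lemma bounds {a : ℕ → ℝ} (ha0 : ∀ j, 0 ≤ a j) (ha : Summable a)
    (h1 : ∀ j, ∫ x, ‖x‖ ∂(μ j) ≤ a j) :
    ∑' j, ∫⁻ x, ‖x‖ₑ ∂(μ j) ≤ ENNReal.ofReal (∑' j, a j) := by
  rw [ENNReal.ofReal_tsum_of_nonneg ha0 ha]
  refine ENNReal.tsum_le_tsum fun j => ?_
  have hint : Integrable (fun x : T => ‖x‖) (μ j) := by
    refine Integrable.of_bound (C := 1 / 2) continuous_norm.aestronglyMeasurable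
      (Eventually.of_forall fun x => ?_)
    rw [norm_norm]
    have := AddCircle.norm_le_half_period (1 : ℝ) (x := x) one_ne_zero
    simpa using this
  have e : ∫⁻ x, ‖x‖ₑ ∂(μ j) = ENNReal.ofReal (∫ x, ‖x‖ ∂(μ j)) := by
    rw [ofReal_integral_eq_lintegral_ofReal hint (Eventually.of_forall fun x => norm_nonneg x)]
    simp_rw [ofReal_norm_eq_enorm]
  rw [e]
  exact ENNReal.ofReal_le_ofReal (h1 j)

theorem infconv {a : ℕ → ℝ} (ha0 : ∀ j, 0 ≤ a j) (ha : Summable a)
    (h1 : ∀ j, ∫ x, ‖x‖ ∂(μ j) ≤ a j) (h2 : ∀ j x, μ j {x} ≤ ENNReal.ofReal (a j)) :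
    ∃ ν : Measure T, IsProbabilityMeasure ν ∧ (∀ x, ν {x} = 0) ∧
      (∀ n : ℕ, (∀ j, MeasurePreserving (fun x : T => n • x) (μ j) (μ j)) →
        MeasurePreserving (fun x : T => n • x) ν ν) ∧
      ∫⁻ x, ‖x‖ₑ ∂ν ≤ ENNReal.ofReal (∑' j, a j) := by
  have hsum := (lintegral_sum μ).trans_le (bounds ha0 ha h1)
  have hG : ∀ᵐ ω ∂(Measure.infinitePi μ), ω ∈ G := by
    have hm : Measurable fun ω : ℕ → T => ∑' j, ‖ω j‖ₑ :=
      Measurable.ennreal_tsum fun j => (measurable_pi_apply j).enorm
    filter_upwards [ae_lt_top hm (ne_top_of_le_ne_top ENNReal.ofReal_ne_top hsum)] with ω hω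
    exact hω.ne
  refine ⟨(Measure.infinitePi μ).map X, Measure.isProbabilityMeasure_map measurable_X.aemeasurable,
    ?_, ?_, ?_⟩
  · intro x
    have hle : ∀ j, (Measure.infinitePi μ).map X {x} ≤ ENNReal.ofReal (a j) := by
      intro j
      rw [Measure.map_apply measurable_X (measurableSet_singleton x)]
      have hm : Measurable fun z : T × (ℕ → T) => Function.update z.2 j z.1 := by
        rw [measurable_pi_iff]
        intro i
        by_cases hi : i = j
        · subst hi; simpa using measurable_fst
        · simp only [Function.update_of_ne hi]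
          exact (measurable_pi_apply i).comp measurable_snd
      have hX : MeasurableSet (X ⁻¹' {x}) := measurable_X (measurableSet_singleton x)
      conv_lhs => rw [← map_update μ j]
      rw [Measure.map_apply hm hX, Measure.prod_apply_symm (hm hX)]
      calc ∫⁻ ω, μ j ((fun t => (t, ω)) ⁻¹'
            ((fun z : T × (ℕ → T) => Function.update z.2 j z.1) ⁻¹' (X ⁻¹' {x})))
              ∂(Measure.infinitePi μ)
          ≤ ∫⁻ ω, ENNReal.ofReal (a j) ∂(Measure.infinitePi μ) := by
            refine lintegral_mono_ae ?_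
            filter_upwards [hG] with ω hω
            refine (measure_mono ?_).trans (h2 j (x - X ω + ω j))
            intro t ht
            simp only [mem_preimage, mem_singleton_iff] at ht ⊢
            rw [X_update hω] at ht
            rw [← ht]; abel
        _ = ENNReal.ofReal (a j) := by simp
    have hlim : Tendsto (fun j => ENNReal.ofReal (a j)) atTop (𝓝 0) := by
      have := ENNReal.tendsto_ofReal ha.tendsto_atTop_zero
      simpa using this
    exact le_antisymm (ge_of_tendsto' hlim hle) bot_le
  · intro n hn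
    have hmn : Measurable fun x : T => n • x := (continuous_const_smul n).measurable
    refine ⟨hmn, ?_⟩
    have hD : Measurable fun ω : ℕ → T => fun j => n • ω j :=
      measurable_pi_iff.2 fun j => hmn.comp (measurable_pi_apply j)
    have hPD : (Measure.infinitePi μ).map (fun ω : ℕ → T => fun j => n • ω j) =
        Measure.infinitePi μ := by
      have := Measure.infinitePi_map_pi (μ := μ) (f := fun _ (x : T) => n • x) (fun _ => hmn)
      rw [this]
      congr 1
      funext j
      exact (hn j).map_eq
    rw [Measure.map_map hmn measurable_X]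
    have e : (fun x : T => n • x) ∘ X =ᵐ[Measure.infinitePi μ] X ∘ fun ω : ℕ → T => fun j => n • ω j := by
      filter_upwards [hG] with ω hω
      simp only [Function.comp]
      rw [X_smul hω]
    rw [Measure.map_congr e, ← Measure.map_map measurable_X hD, hPD]
  · rw [lintegral_map measurable_enorm measurable_X]
    refine le_trans (lintegral_mono_ae ?_) hsum
    filter_upwards [hG] with ω hω
    rw [← (hasSum_X hω).tsum_eq]
    exact enorm_tsum_le_tsum_enorm

end Pool.Agent.TH741.FU
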