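import Mathlib
import Pool.Agent.TH741.FU.Conv
import Pool.Agent.H847R3.SuppC

/-!
Transfer of non-concentration from atomless invariant measures to all invariant measures.
-/

set_option autoImplicit false

open MeasureTheory Filter Topology Set ProbabilityTheory
open scoped ENNReal

namespace Pool.Agent.TH741.FU

open Pool.Agent.H847R3.XpXq (KU KU_finite KU_inv exists_den torsion_norm norm_smul_le hit
  exists_rep_norm)

/-- the Borel probability measures on the circle which are invariant under `×p` and `×q` -/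
def InvM (p q : ℕ) (μ : Measure T) : Prop :=
  IsProbabilityMeasure μ ∧ MeasurePreserving (fun x : T => p • x) μ μ ∧
    MeasurePreserving (fun x : T => q • x) μ μ

/-- the far set -/
def A (p : ℕ) : Set T := {x | 1 / (2 * (p : ℝ)) < ‖x‖}

lemma isOpen_A (p : ℕ) : IsOpen (A p) := isOpen_lt continuous_const continuous_norm

lemma norm_le_half (x : T) : ‖x‖ ≤ 1 / 2 := by
  have := AddCircle.norm_le_half_period (1 : ℝ) (x := x) one_ne_zero
  simpa using this

lemma integrable_norm (μ : Measure T) [IsFiniteMeasure μ] : Integrable (fun x : T => ‖x‖) μ := by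
  refine Integrable.of_bound (C := 1 / 2) continuous_norm.aestronglyMeasurable
    (Eventually.of_forall fun x => ?_)
  rw [norm_norm]
  exact norm_le_half x

lemma norm_smul_eq {p : ℕ} (hp : 2 ≤ p) {x : T} (hx : ‖x‖ ≤ 1 / (2 * (p : ℝ))) :
    ‖p • x‖ = p * ‖x‖ := by
  have hp0 : (0 : ℝ) < p := by exact_mod_cast (by omega : 0 < p)
  obtain ⟨v, hv, hvn⟩ := exists_rep_norm x
  rw [← hvn] at hx
  have h1 : |(p : ℝ) * v| ≤ 1 / 2 := by
    rw [abs_mul, abs_of_pos hp0]
    calc (p : ℝ) * |v| ≤ p * (1 / (2 * (p : ℝ))) := by gcongr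
      _ = 1 / 2 := by field_simp
  have h2 : ‖(((p : ℝ) * v : ℝ) : T)‖ = |(p : ℝ) * v| := by
    rw [AddCircle.norm_coe_eq_abs_iff (1 : ℝ) one_ne_zero]
    simpa using h1
  rw [← hvn, ← hv, ← AddCircle.coe_nsmul, nsmul_eq_mul, h2, abs_mul, abs_of_pos hp0]

/-- the mean distance to `0` is at most the mass of the far set -/
lemma mean_le {p : ℕ} (hp : 2 ≤ p) {μ : Measure T} [IsProbabilityMeasure μ]
    (h : MeasurePreserving (fun x : T => p • x) μ μ) : ∫ x, ‖x‖ ∂μ ≤ μ.real (A p) := by
  have hpR : (2 : ℝ) ≤ p := by exact_mod_cast hp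
  have h1 : ∫ x, ‖p • x‖ ∂μ = ∫ x, ‖x‖ ∂μ := by
    rw [← integral_map h.measurable.aemeasurable continuous_norm.aestronglyMeasurable, h.map_eq]
  have hind : Integrable (fun x : T => (A p).indicator (fun _ => (1 : ℝ)) x) μ :=
    (integrable_const (1 : ℝ)).indicator (isOpen_A p).measurableSet
  have h2 : ∫ x, ((p : ℝ) * ‖x‖ - (p / 2) * (A p).indicator (fun _ => (1 : ℝ)) x) ∂μ ≤
      ∫ x, ‖p • x‖ ∂μ := by
    refine integral_mono (((integrable_norm μ).const_mul _).sub (hind.const_mul _)) ?_ fun x => ?_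
    · exact (h.integrable_comp (integrable_norm μ).aestronglyMeasurable).2 (integrable_norm μ)
    · by_cases hx : x ∈ A p
      · simp only [indicator_of_mem hx]
        have h3 := norm_le_half x
        have h4 : (p : ℝ) * ‖x‖ ≤ p * (1 / 2) := by gcongr
        have h5 := norm_nonneg (p • x)
        linarith
      · simp only [indicator_of_notMem hx, mul_zero, sub_zero]
        exact (norm_smul_eq hp (not_lt.1 hx)).ge
  rw [integral_sub ((integrable_norm μ).const_mul _) (hind.const_mul _), integral_const_mul,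
    integral_const_mul, integral_indicator_const _ (isOpen_A p).measurableSet, h1] at h2
  simp only [smul_eq_mul, mul_one] at h2
  have h6 : 0 ≤ μ.real (A p) := measureReal_nonneg
  nlinarith

lemma mass_smul_ge {n : ℕ} {μ : Measure T} (h : MeasurePreserving (fun x : T => n • x) μ μ)
    (x : T) : μ {x} ≤ μ {n • x} := by
  rw [← h.measure_preimage (measurableSet_singleton (n • x)).nullMeasurableSet]
  exact measure_mono (by rintro y rfl; rfl)

/-- atoms off `0` are bounded by the mass of the far set -/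
lemma atom_le {p : ℕ} (hp : 2 ≤ p) {μ : Measure T}
    (h : MeasurePreserving (fun x : T => p • x) μ μ) {x : T} (hx : x ≠ 0) :
    μ {x} ≤ μ (A p) := by
  have hex : ∃ n : ℕ, (p ^ n) • x ∈ A p := by
    by_contra hcon
    push Not at hcon
    have h1 : ∀ n : ℕ, ‖(p ^ n) • x‖ = (p : ℝ) ^ n * ‖x‖ := by
      intro n
      induction n with
      | zero => simp
      | succ n ih =>
        have h2 := norm_smul_eq hp (not_lt.1 (hcon n))
        rw [pow_succ', mul_nsmul', h2, ih]
        ring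
    have hpos : 0 < ‖x‖ := norm_pos_iff.2 hx
    have hp1 : (1 : ℝ) < p := by exact_mod_cast (by omega : 1 < p)
    obtain ⟨n, hn⟩ := pow_unbounded_of_one_lt (1 / ‖x‖) hp1
    have h3 := norm_le_half ((p ^ n) • x)
    rw [h1, ] at h3
    rw [div_lt_iff₀ hpos] at hn
    linarith
  obtain ⟨n, hn⟩ := hex
  have h4 : ∀ m : ℕ, μ {x} ≤ μ {(p ^ m) • x} := by
    intro m
    induction m with
    | zero => simp
    | succ m ih =>
      refine ih.trans ?_
      rw [pow_succ', mul_nsmul']
      exact mass_smul_ge h _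
  exact (h4 n).trans (measure_mono (by rintro y rfl; exact hn))

/-- a forward invariant set is invariant up to null sets -/
lemma preimage_ae {n : ℕ} {μ : Measure T} [IsFiniteMeasure μ]
    (h : MeasurePreserving (fun x : T => n • x) μ μ)
    {E : Set T} (hE : MeasurableSet E) (hEn : ∀ x ∈ E, n • x ∈ E) :
    (fun x : T => n • x) ⁻¹' Eᶜ =ᵐ[μ] Eᶜ := by
  have h1 : E =ᵐ[μ] (fun x : T => n • x) ⁻¹' E := by
    refine ae_eq_of_subset_of_measure_ge hEn ?_ hE.nullMeasurableSet (measure_ne_top μ _)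
    rw [h.measure_preimage hE.nullMeasurableSet]
  rw [preimage_compl]
  exact h1.symm.compl

lemma pres_cond {n : ℕ} {μ : Measure T} [IsFiniteMeasure μ]
    (h : MeasurePreserving (fun x : T => n • x) μ μ)
    {E : Set T} (hE : MeasurableSet E) (hEn : ∀ x ∈ E, n • x ∈ E) :
    MeasurePreserving (fun x : T => n • x) (μ[|Eᶜ]) (μ[|Eᶜ]) := by
  have h1 := h.restrict_preimage hE.compl
  rw [Measure.restrict_congr_set (preimage_ae h hE hEn)] at h1
  exact h1.smul_measure _

/-- conditioning an invariant measure off a forward invariant set -/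
lemma InvM.cond {p q : ℕ} {μ : Measure T} (h : InvM p q μ) {E : Set T} (hE : MeasurableSet E)
    (hEp : ∀ x ∈ E, p • x ∈ E) (hEq : ∀ x ∈ E, q • x ∈ E) (h0 : μ Eᶜ ≠ 0) :
    InvM p q (μ[|Eᶜ]) := by
  have := h.1
  exact ⟨cond_isProbabilityMeasure h0, pres_cond h.2.1 hE hEp, pres_cond h.2.2 hE hEq⟩

lemma cond_real {μ : Measure T} {E B : Set T} (hE : MeasurableSet E) :
    (μ[|Eᶜ]).real B = μ.real (Eᶜ ∩ B) / μ.real Eᶜ := by
  rw [measureReal_def, cond_apply hE.compl, ENNReal.toReal_mul, ENNReal.toReal_inv]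
  rw [measureReal_def, measureReal_def, div_eq_inv_mul]

lemma cond_real_le {μ : Measure T} [IsFiniteMeasure μ] {E B : Set T} (hE : MeasurableSet E) :
    (μ[|Eᶜ]).real B ≤ μ.real B / μ.real Eᶜ := by
  rw [cond_real hE]
  exact div_le_div_of_nonneg_right (measureReal_mono inter_subset_right) measureReal_nonneg

/-- **Transfer.** A lower bound for the mass of the far set, for the atomless invariant measures,
gives one for all invariant measures. -/
theorem transfer {p q : ℕ} (hp : 2 ≤ p) {c : ℝ} (hc : 0 < c)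
    (h : ∀ μ : Measure T, InvM p q μ → (∀ x, μ {x} = 0) → c ≤ μ.real (A p)) :
    ∃ c' : ℝ, 0 < c' ∧ ∀ μ : Measure T, InvM p q μ → c' * μ.real {0}ᶜ ≤ μ.real (A p) := by
  by_contra hcon
  push Not at hcon
  have hp0 : (0 : ℝ) < p := by exact_mod_cast (by omega : 0 < p)
  set a : ℕ → ℝ := fun j => c / (8 * p) * (1 / 2) ^ j with ha
  have ha0 : ∀ j, 0 < a j := fun j => by positivity
  have hasum : HasSum a (c / (4 * p)) := by
    have h1 := hasSum_geometric_two.mul_left (c / (8 * p))
    have e : c / (8 * p) * 2 = c / (4 * p) := by field_simp; norm_num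
    rw [e] at h1
    exact h1
  have h1 : ∀ j, ∃ μ : Measure T, InvM p q μ ∧ μ {0} = 0 ∧ μ.real (A p) ≤ a j := by
    intro j
    obtain ⟨μ, hμ, hlt⟩ := hcon (a j) (ha0 j)
    have := hμ.1
    have hpos : 0 < μ.real {0}ᶜ := by
      by_contra hneg
      have h0 : μ.real {0}ᶜ = 0 := le_antisymm (not_lt.1 hneg) measureReal_nonneg
      rw [h0, mul_zero] at hlt
      exact absurd hlt (not_lt.2 measureReal_nonneg)
    have h0 : μ {0}ᶜ ≠ 0 := by
      intro h0
      rw [measureReal_def, h0] at hpos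
      simp at hpos
    refine ⟨μ[|{0}ᶜ], hμ.cond (measurableSet_singleton 0) (by rintro x rfl; simp)
      (by rintro x rfl; simp) h0, ?_, ?_⟩
    · rw [cond_apply (measurableSet_singleton (0 : T)).compl]
      simp
    · refine (cond_real_le (measurableSet_singleton 0)).trans ?_
      rw [div_le_iff₀ hpos]
      exact hlt.le
  choose μ hμ hμ0 hμA using h1
  have : ∀ j, IsProbabilityMeasure (μ j) := fun j => (hμ j).1
  have h2 : ∀ j x, μ j {x} ≤ ENNReal.ofReal (a j) := by
    intro j x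
    by_cases hx : x = 0
    · rw [hx, hμ0 j]; exact bot_le
    · refine (atom_le hp (hμ j).2.1 hx).trans ?_
      rw [← ENNReal.ofReal_toReal (measure_ne_top (μ j) (A p))]
      exact ENNReal.ofReal_le_ofReal (hμA j)
  obtain ⟨ν, hν, hνa, hνi, hνn⟩ := infconv (μ := μ) (fun j => (ha0 j).le) hasum.summable
    (fun j => (mean_le hp (hμ j).2.1).trans (hμA j)) h2
  have h3 := h ν ⟨hν, hνi p fun j => (hμ j).2.1, hνi q fun j => (hμ j).2.2⟩ hνa
  rw [hasum.tsum_eq] at hνn
  -- Markov
  have h4 : ENNReal.ofReal (1 / (2 * (p : ℝ))) * ν (A p) ≤ ∫⁻ x, ‖x‖ₑ ∂ν := by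
    refine le_trans ?_ (mul_meas_ge_le_lintegral measurable_enorm (ENNReal.ofReal (1 / (2 * (p : ℝ)))))
    gcongr
    intro x hx
    have hx' : 1 / (2 * (p : ℝ)) < ‖x‖ := hx
    show ENNReal.ofReal (1 / (2 * (p : ℝ))) ≤ ‖x‖ₑ
    rw [← ofReal_norm]
    exact ENNReal.ofReal_le_ofReal hx'.le
  have h5 := h4.trans hνn
  rw [← ENNReal.ofReal_toReal (measure_ne_top ν (A p)), ← ENNReal.ofReal_mul (by positivity),
    ENNReal.ofReal_le_ofReal_iff (by positivity)] at h5
  change 1 / (2 * (p : ℝ)) * ν.real (A p) ≤ _ at h5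
  have h6 : 1 / (2 * (p : ℝ)) * c ≤ c / (4 * p) := le_trans (by gcongr) h5
  have e1 : 1 / (2 * (p : ℝ)) * c = 2 * (c / (4 * p)) := by field_simp; norm_num
  have e2 : 0 < c / (4 * (p : ℝ)) := by positivity
  linarith

lemma measurableSet_KU (p q : ℕ) {U : Set T} (hU : IsOpen U) : MeasurableSet (KU p q U) :=
  (Pool.Agent.H847R3.XpXq.KU_closed p q hU).measurableSet

/-- from the far set to all open sets -/
theorem open_of_far {p q : ℕ} (hp : 2 ≤ p) (hq : 2 ≤ q)
    (hirr : Irrational (Real.log (p : ℝ) / Real.log (q : ℝ))) {c : ℝ} (hc : 0 < c)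
    (h : ∀ μ : Measure T, InvM p q μ → c * μ.real {0}ᶜ ≤ μ.real (A p)) {U : Set T}
    (hU : IsOpen U) (hne : U.Nonempty) :
    ∃ c' : ℝ, 0 < c' ∧ ∀ μ : Measure T, InvM p q μ → c' * μ.real (KU p q U)ᶜ ≤ μ.real U := by
  obtain ⟨d, hd, hdK⟩ := exists_den hp (KU_finite hp hq hirr hU hne) (KU_inv p q U)
  have hd0 : (0 : ℝ) < d := by exact_mod_cast hd
  have hp0 : (0 : ℝ) < p := by exact_mod_cast (by omega : 0 < p)
  set c0 : ℝ := 1 / (2 * p * d) with hc0
  have hc0' : 0 < c0 := by positivity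
  obtain ⟨n, hn⟩ := hit (p := p) (q := q) hU hc0'
  refine ⟨1 / ((n + 1) * (1 + 1 / c)), by positivity, fun μ hμ => ?_⟩
  have := hμ.1
  set E : Set T := {x : T | ∀ k ∈ KU p q U, c0 ≤ dist x k} with hE
  have hEn : μ.real E ≤ n * μ.real U := hn μ hμ.1 hμ.2.1 hμ.2.2
  have hmd : Measurable fun x : T => d • x := (continuous_const_smul d).measurable
  have hν : InvM p q (μ.map fun x : T => d • x) :=
    ⟨Measure.isProbabilityMeasure_map hmd.aemeasurable,
      Pool.Agent.H847R3.XpXq.map_inv hμ.2.1, Pool.Agent.H847R3.XpXq.map_inv hμ.2.2⟩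
  have key := h _ hν
  rw [map_measureReal_apply hmd (measurableSet_singleton 0).compl,
    map_measureReal_apply hmd (isOpen_A p).measurableSet] at key
  have hsub1 : (fun x : T => d • x) ⁻¹' A p ⊆ E := by
    intro x hx k hk
    by_contra hcon
    push Not at hcon
    have h4 : d • x = d • (x - k) := by rw [nsmul_sub, hdK k hk, sub_zero]
    have h5 : 1 / (2 * (p : ℝ)) < ‖d • x‖ := hx
    rw [h4] at h5
    have h6 := norm_smul_le d (x - k)
    rw [← dist_eq_norm] at h6
    have h7 : (d : ℝ) * dist x k < d * c0 := by gcongr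
    have h8 : (d : ℝ) * c0 = 1 / (2 * p) := by rw [hc0]; field_simp
    linarith
  have hsub2 : (KU p q U)ᶜ ⊆ ((fun x : T => d • x) ⁻¹' {0}ᶜ) ∪ E := by
    intro x hx
    by_cases h0 : d • x = 0
    · right
      intro k hk
      have hxk : x - k ≠ 0 := by
        intro h9
        exact hx (by rw [sub_eq_zero.1 h9]; exact hk)
      have h10 : d • (x - k) = 0 := by rw [nsmul_sub, h0, hdK k hk, sub_zero]
      have h11 := torsion_norm hd h10 hxk
      rw [← dist_eq_norm] at h11
      refine le_trans ?_ h11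
      rw [hc0]
      apply one_div_le_one_div_of_le hd0
      have hp1 : (1 : ℝ) ≤ p := by exact_mod_cast (by omega : 1 ≤ p)
      nlinarith
    · left
      exact h0
  have h12 : μ.real (KU p q U)ᶜ ≤ μ.real ((fun x : T => d • x) ⁻¹' {0}ᶜ) + μ.real E :=
    (measureReal_mono hsub2).trans (measureReal_union_le _ _)
  have h13 : μ.real ((fun x : T => d • x) ⁻¹' A p) ≤ μ.real E := measureReal_mono hsub1
  have h14 : μ.real ((fun x : T => d • x) ⁻¹' {0}ᶜ) ≤ (1 / c) * μ.real E := by
    rw [one_div, ← div_eq_inv_mul, le_div_iff₀ hc, mul_comm]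
    exact key.trans h13
  have h15 : μ.real (KU p q U)ᶜ ≤ (1 + 1 / c) * μ.real E := by linarith
  have hU0 : 0 ≤ μ.real U := measureReal_nonneg
  have h16 : μ.real (KU p q U)ᶜ ≤ (1 + 1 / c) * ((n + 1) * μ.real U) := by
    refine h15.trans ?_
    gcongr
    linarith
  rw [div_mul_eq_mul_div, one_mul, div_le_iff₀ (by positivity)]
  calc μ.real (KU p q U)ᶜ ≤ (1 + 1 / c) * ((n + 1) * μ.real U) := h16
    _ = μ.real U * ((n + 1) * (1 + 1 / c)) := by ring

end Pool.Agent.TH741.FU
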