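import Mathlib
import Pool.Agent.TH741.FU.Basic

/-!
The uniform minorant: weak limits of invariant measures.
-/

set_option autoImplicit false

open MeasureTheory Filter Topology Set ProbabilityTheory
open scoped ENNReal

namespace Pool.Agent.TH741.FU

/-- Furstenberg's assertion -/
def Furst (p q : ℕ) : Prop := ∀ μ : Measure T, InvM p q μ → (∀ x, μ {x} = 0) → μ = volume

lemma pres_of_tendsto {n : ℕ} {ι : Type*} {L : Filter ι} [L.NeBot] {μs : ι → ProbabilityMeasure T}
    {ν : ProbabilityMeasure T} (h : Tendsto μs L (𝓝 ν))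
    (hn : ∀ i, MeasurePreserving (fun x : T => n • x) (μs i : Measure T) (μs i : Measure T)) :
    MeasurePreserving (fun x : T => n • x) (ν : Measure T) (ν : Measure T) := by
  have hc : Continuous fun x : T => n • x := continuous_const_smul n
  refine ⟨hc.measurable, ?_⟩
  have h1 := ProbabilityMeasure.tendsto_map_of_tendsto_of_continuous μs ν h hc
  have h2 : (fun i => (μs i).map hc.measurable.aemeasurable) = μs := by
    funext i
    apply Subtype.ext
    exact (hn i).map_eq
  rw [h2] at h1
  have h3 := tendsto_nhds_unique h h1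
  have h4 : (ν : Measure T) = ((ν.map hc.measurable.aemeasurable : ProbabilityMeasure T) : Measure T) := by
    rw [← h3]
  rw [ProbabilityMeasure.toMeasure_map] at h4
  exact h4.symm

/-- the atoms -/
def atoms (ν : Measure T) : Set T := {x | ν {x} ≠ 0}

lemma countable_atoms (ν : Measure T) [IsFiniteMeasure ν] : (atoms ν).Countable := by
  have h := Measure.countable_meas_pos_of_disjoint_iUnion (μ := ν) (As := fun x : T => ({x} : Set T))
    (fun x => measurableSet_singleton x) (fun x y hxy => by simpa using hxy)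
  refine h.mono fun x hx => ?_
  exact pos_iff_ne_zero.2 hx

lemma atoms_smul {n : ℕ} {ν : Measure T} (h : MeasurePreserving (fun x : T => n • x) ν ν) :
    ∀ x ∈ atoms ν, n • x ∈ atoms ν := by
  intro x hx h0
  exact hx (le_antisymm ((mass_smul_ge h x).trans h0.le) bot_le)

/-- atoms are torsion points -/
lemma atoms_torsion {p : ℕ} (hp : 2 ≤ p) {ν : Measure T} [IsFiniteMeasure ν]
    (h : MeasurePreserving (fun x : T => p • x) ν ν) {x : T} (hx : x ∈ atoms ν) :
    IsOfFinAddOrder x := by
  by_contra hcon
  have hinj := Pool.Agent.H847R3.XpXq.orbit_inj hp hcon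
  have h4 : ∀ m : ℕ, ν {x} ≤ ν {(p ^ m) • x} := by
    intro m
    induction m with
    | zero => simp
    | succ m ih =>
      refine ih.trans ?_
      rw [pow_succ', mul_nsmul']
      exact mass_smul_ge h _
  have h5 := measure_iUnion (μ := ν) (f := fun m : ℕ => ({(p ^ m) • x} : Set T))
    (fun i j hij => by
      simp only [Function.onFun, disjoint_singleton]
      exact fun he => hij (hinj he)) (fun m => measurableSet_singleton _)
  have h6 : (∑' _ : ℕ, ν {x}) ≤ ν (⋃ m : ℕ, ({(p ^ m) • x} : Set T)) := by
    rw [h5]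
    exact ENNReal.tsum_le_tsum h4
  have h7 : (∑' _ : ℕ, ν {x}) = ⊤ := ENNReal.tsum_const_eq_top_of_ne_zero hx
  rw [h7, top_le_iff] at h6
  exact measure_ne_top ν _ h6

/-- the continuous part of an invariant measure is a multiple of Lebesgue measure -/
lemma cont_part {p q : ℕ} (hF : Furst p q) {ν : Measure T} (hν : InvM p q ν) :
    ν.restrict (atoms ν)ᶜ = ν (atoms ν)ᶜ • (volume : Measure T) := by
  have := hν.1
  have hm : MeasurableSet (atoms ν) := (countable_atoms ν).measurableSet
  by_cases h0 : ν (atoms ν)ᶜ = 0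
  · rw [h0, zero_smul, Measure.restrict_eq_zero]
    exact h0
  · have h1 := hν.cond hm (atoms_smul hν.2.1) (atoms_smul hν.2.2) h0
    have h2 := hF _ h1 fun x => by
      rw [cond_apply hm.compl]
      by_cases hx : x ∈ atoms ν
      · have : (atoms ν)ᶜ ∩ {x} = ∅ := by
          ext y
          simp only [mem_inter_iff, mem_compl_iff, mem_singleton_iff, mem_empty_iff_false,
            iff_false, not_and]
          rintro h rfl
          exact h hx
        rw [this]; simp
      · have h3 : ν {x} = 0 := by
          by_contra h; exact hx h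
        rw [measure_mono_null inter_subset_right h3, mul_zero]
    rw [← h2, ProbabilityTheory.cond, smul_smul, ENNReal.mul_inv_cancel h0 (measure_ne_top ν _),
      one_smul]

/-- If every multiple `N ν` gives mass at least `c` to the closed far set then `ν` is at least `c`
times Lebesgue measure. -/
lemma minorant {p q : ℕ} (hp : 2 ≤ p) {ν : Measure T} (hν : InvM p q ν) {c : ℝ≥0∞}
    (h : ∀ N : ℕ, 1 ≤ N → c ≤ ν {x | 1 / (2 * (p : ℝ)) ≤ ‖N • x‖}) :
    c ≤ ν (atoms ν)ᶜ := by
  have := hν.1
  have hp0 : (0 : ℝ) < p := by exact_mod_cast (by omega : 0 < p)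
  set D := atoms ν with hD
  have hm : MeasurableSet D := (countable_atoms ν).measurableSet
  set B : ℕ → Set T := fun j => {x ∈ D | ((j + 1).factorial) • x ≠ 0} with hB
  have hBm : ∀ j, MeasurableSet (B j) := fun j =>
    ((countable_atoms ν).mono (fun x hx => hx.1)).measurableSet
  have hanti : Antitone B := by
    intro i j hij x hx
    refine ⟨hx.1, fun h0 => hx.2 ?_⟩
    obtain ⟨k, hk⟩ := Nat.factorial_dvd_factorial (show i + 1 ≤ j + 1 by omega)
    rw [hk, mul_comm, mul_nsmul', h0, nsmul_zero]
  have hinter : ⋂ j, B j = ∅ := by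
    ext x
    simp only [mem_iInter, mem_empty_iff_false, iff_false, not_forall]
    by_cases hx : x ∈ D
    · have h1 := atoms_torsion hp hν.2.1 hx
      have h2 := h1.addOrderOf_pos
      refine ⟨addOrderOf x, fun h3 => h3.2 ?_⟩
      rw [← addOrderOf_dvd_iff_nsmul_eq_zero]
      exact (Nat.dvd_factorial h2 le_rfl).trans (Nat.factorial_dvd_factorial (by omega))
    · exact ⟨0, fun h3 => hx h3.1⟩
  have hlim : Tendsto (fun j => ν (B j)) atTop (𝓝 0) := by
    have h1 := tendsto_measure_iInter_atTop (μ := ν) (fun j => (hBm j).nullMeasurableSet) hanti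
      ⟨0, measure_ne_top ν _⟩
    rwa [hinter, measure_empty] at h1
  have hle : ∀ j, c ≤ ν Dᶜ + ν (B j) := by
    intro j
    refine (h _ (Nat.factorial_pos (j + 1))).trans ?_
    refine le_trans (measure_mono ?_) (measure_union_le _ _)
    intro x hx
    by_cases hxD : x ∈ D
    · right
      refine ⟨hxD, fun h0 => ?_⟩
      have hx' : 1 / (2 * (p : ℝ)) ≤ ‖(j + 1).factorial • x‖ := hx
      rw [h0, norm_zero] at hx'
      have : 0 < 1 / (2 * (p : ℝ)) := by positivity
      linarith
    · left; exact hxD
  have hlim2 : Tendsto (fun j => ν Dᶜ + ν (B j)) atTop (𝓝 (ν Dᶜ + 0)) :=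
    tendsto_const_nhds.add hlim
  rw [add_zero] at hlim2
  exact ge_of_tendsto' hlim2 hle

/-- the torsion points -/
def tor (j : ℕ) : Set T := {x | ((j + 1).factorial) • x = 0}

lemma tor_finite (j : ℕ) : (tor j).Finite :=
  AddCircle.finite_torsion (p := (1 : ℝ)) (Nat.factorial_pos (j + 1))

lemma tor_smul (j n : ℕ) : ∀ x ∈ tor j, n • x ∈ tor j := by
  intro x hx
  have hx' : ((j + 1).factorial) • x = 0 := hx
  show ((j + 1).factorial) • (n • x) = 0
  rw [← mul_nsmul', mul_comm, mul_nsmul', hx', nsmul_zero]

theorem uniform {p q : ℕ} (hp : 2 ≤ p) (hF : Furst p q) {c : ℝ} (hc : 0 < c)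
    (h : ∀ μ : Measure T, InvM p q μ → c * μ.real {0}ᶜ ≤ μ.real (A p)) {U : Set T}
    (hU : IsOpen U) :
    ∃ F : Set T, F.Finite ∧ ∀ μ : Measure T, InvM p q μ →
      (c / 2) * (volume : Measure T).real U * μ.real Fᶜ ≤ μ.real U := by
  by_contra hcon
  push Not at hcon
  have h1 : ∀ j : ℕ, ∃ μ : Measure T, InvM p q μ ∧ μ (tor j) = 0 ∧
      μ.real U ≤ (c / 2) * (volume : Measure T).real U := by
    intro j
    obtain ⟨μ, hμ, hlt⟩ := hcon (tor j) (tor_finite j)
    have := hμ.1
    have hm : MeasurableSet (tor j) := (tor_finite j).measurableSet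
    have hpos : 0 < μ.real (tor j)ᶜ := by
      by_contra hneg
      have h0 : μ.real (tor j)ᶜ = 0 := le_antisymm (not_lt.1 hneg) measureReal_nonneg
      rw [h0, mul_zero] at hlt
      exact absurd hlt (not_lt.2 measureReal_nonneg)
    have h0 : μ (tor j)ᶜ ≠ 0 := by
      intro h0
      rw [measureReal_def, h0] at hpos
      simp at hpos
    refine ⟨μ[|(tor j)ᶜ], hμ.cond hm (tor_smul j p) (tor_smul j q) h0, ?_, ?_⟩
    · rw [cond_apply hm.compl]
      simp
    · refine (cond_real_le hm).trans ?_
      rw [div_le_iff₀ hpos]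
      exact hlt.le
  choose μ hμ hμ0 hμU using h1
  -- the failing `U` has positive measure
  have hUpos : 0 < (volume : Measure T).real U := by
    obtain ⟨μ', hμ', hlt⟩ := hcon ∅ finite_empty
    by_contra hneg
    have h0 : (volume : Measure T).real U = 0 := le_antisymm (not_lt.1 hneg) measureReal_nonneg
    rw [h0] at hlt
    simp only [mul_zero, zero_mul] at hlt
    exact absurd hlt (not_lt.2 measureReal_nonneg)
  set P : ℕ → ProbabilityMeasure T := fun j => ⟨μ j, (hμ j).1⟩ with hP
  set 𝒰 : Ultrafilter ℕ := Ultrafilter.of atTop with h𝒰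
  have h𝒰le : (𝒰 : Filter ℕ) ≤ atTop := Ultrafilter.of_le atTop
  set ν : ProbabilityMeasure T := (𝒰.map P).lim with hνdef
  have hlim : Tendsto P (𝒰 : Filter ℕ) (𝓝 ν) := (𝒰.map P).le_nhds_lim
  have hν : InvM p q (ν : Measure T) := ⟨inferInstance,
    pres_of_tendsto hlim fun j => (hμ j).2.1, pres_of_tendsto hlim fun j => (hμ j).2.2⟩
  -- the open set
  have hνU : (ν : Measure T).real U ≤ (c / 2) * (volume : Measure T).real U := by
    have h2 := ProbabilityMeasure.le_liminf_measure_open_of_tendsto hlim hU
    have h3 : (𝒰 : Filter ℕ).liminf (fun j => (P j : Measure T) U) ≤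
        ENNReal.ofReal ((c / 2) * (volume : Measure T).real U) := by
      refine (liminf_le_liminf (v := fun _ => ENNReal.ofReal ((c / 2) * (volume : Measure T).real U))
        (Eventually.of_forall fun j => ?_)).trans (liminf_const _).le
      have := (hμ j).1
      show μ j U ≤ _
      rw [← ENNReal.ofReal_toReal (measure_ne_top (μ j) U)]
      exact ENNReal.ofReal_le_ofReal (hμU j)
    exact ENNReal.toReal_le_of_le_ofReal (by positivity) (h2.trans h3)
  -- the far sets of the multiples
  have hfar : ∀ N : ℕ, 1 ≤ N →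
      ENNReal.ofReal c ≤ (ν : Measure T) {x | 1 / (2 * (p : ℝ)) ≤ ‖N • x‖} := by
    intro N hN
    have hcl : IsClosed {x : T | 1 / (2 * (p : ℝ)) ≤ ‖N • x‖} :=
      isClosed_le continuous_const (continuous_norm.comp (continuous_const_smul N))
    refine le_trans ?_ (ProbabilityMeasure.limsup_measure_closed_le_of_tendsto hlim hcl)
    refine le_limsup_of_frequently_le ?_
    refine Eventually.frequently (h𝒰le ?_)
    filter_upwards [eventually_ge_atTop N] with j hj
    have := (hμ j).1
    have hmN : Measurable fun x : T => N • x := (continuous_const_smul N).measurable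
    have hν' : InvM p q ((μ j).map fun x : T => N • x) :=
      ⟨Measure.isProbabilityMeasure_map hmN.aemeasurable,
        Pool.Agent.H847R3.XpXq.map_inv (hμ j).2.1, Pool.Agent.H847R3.XpXq.map_inv (hμ j).2.2⟩
    have key := h _ hν'
    rw [map_measureReal_apply hmN (measurableSet_singleton 0).compl,
      map_measureReal_apply hmN (isOpen_A p).measurableSet] at key
    have h4 : μ j ((fun x : T => N • x) ⁻¹' {0}) = 0 := by
      refine measure_mono_null ?_ (hμ0 j)
      intro x hx
      have hx' : N • x = 0 := hx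
      show ((j + 1).factorial) • x = 0
      obtain ⟨k, hk⟩ := Nat.dvd_factorial hN (show N ≤ j + 1 by omega)
      rw [hk, mul_comm, mul_nsmul', hx', nsmul_zero]
    have h5 : (μ j).real ((fun x : T => N • x) ⁻¹' {0}ᶜ) = 1 := by
      rw [preimage_compl, measureReal_compl (hmN (measurableSet_singleton 0)), measureReal_def (μ j),
        measureReal_def, h4]
      simp
    rw [h5, mul_one] at key
    have h6 : (μ j).real ((fun x : T => N • x) ⁻¹' A p) ≤
        (μ j).real {x : T | 1 / (2 * (p : ℝ)) ≤ ‖N • x‖} :=
      measureReal_mono fun x (hx : 1 / (2 * (p : ℝ)) < ‖N • x‖) => hx.le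
    exact ENNReal.ofReal_le_of_le_toReal (key.trans h6)
  have h7 := minorant hp hν hfar
  have h8 : (ν : Measure T) (atoms (ν : Measure T))ᶜ * (volume : Measure T) U ≤ (ν : Measure T) U := by
    have h9 := cont_part hF hν
    have h10 : ((ν : Measure T).restrict (atoms (ν : Measure T))ᶜ) U ≤ (ν : Measure T) U :=
      Measure.restrict_apply_le _ _
    rw [h9] at h10
    simpa using h10
  have h11 : ENNReal.ofReal c * (volume : Measure T) U ≤ (ν : Measure T) U :=
    (mul_le_mul_left h7 _).trans h8
  have h12 : c * (volume : Measure T).real U ≤ (ν : Measure T).real U := by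
    have h13 := ENNReal.toReal_mono (measure_ne_top (ν : Measure T) U) h11
    rwa [ENNReal.toReal_mul, ENNReal.toReal_ofReal hc.le] at h13
  nlinarith

/-- a minorant for all open sets is a minorant -/
lemma le_of_open {μ : Measure T} [IsProbabilityMeasure μ] {c : ℝ} (hc : 0 ≤ c)
    (h : ∀ U : Set T, IsOpen U → c * (volume : Measure T).real U ≤ μ.real U) :
    ENNReal.ofReal c • (volume : Measure T) ≤ μ := by
  refine Measure.le_iff.2 fun s _ => ?_
  rw [Measure.smul_apply, smul_eq_mul, s.measure_eq_iInf_isOpen μ]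
  refine le_iInf fun U => le_iInf fun hsU => le_iInf fun hU => ?_
  calc ENNReal.ofReal c * (volume : Measure T) s ≤ ENNReal.ofReal c * (volume : Measure T) U := by
        gcongr
    _ = ENNReal.ofReal (c * (volume : Measure T).real U) := by
        rw [ENNReal.ofReal_mul hc, measureReal_def, ENNReal.ofReal_toReal (measure_ne_top _ _)]
    _ ≤ ENNReal.ofReal (μ.real U) := ENNReal.ofReal_le_ofReal (h U hU)
    _ = μ U := by rw [measureReal_def, ENNReal.ofReal_toReal (measure_ne_top _ _)]

/-- `×n` preserves the difference -/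
lemma pres_sub {n : ℕ} {μ ρ : Measure T} [IsFiniteMeasure μ] [IsFiniteMeasure ρ] (hle : ρ ≤ μ)
    (h1 : MeasurePreserving (fun x : T => n • x) μ μ)
    (h2 : MeasurePreserving (fun x : T => n • x) ρ ρ) :
    MeasurePreserving (fun x : T => n • x) (μ - ρ) (μ - ρ) := by
  refine ⟨h1.measurable, ?_⟩
  ext s hs
  rw [Measure.map_apply h1.measurable hs, Measure.sub_apply (h1.measurable hs) hle,
    Measure.sub_apply hs hle, h1.measure_preimage hs.nullMeasurableSet,
    h2.measure_preimage hs.nullMeasurableSet]

instance vol_prob : IsProbabilityMeasure (volume : Measure T) := ⟨UnitAddCircle.measure_univ⟩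

lemma pres_volume {n : ℕ} (hn : 1 ≤ n) :
    MeasurePreserving (fun x : T => n • x) (volume : Measure T) volume := by
  rcases hn.eq_or_lt with h | h
  · subst h
    simp only [one_smul]
    exact MeasurePreserving.id _
  · exact (AddCircle.ergodic_nsmul h).toMeasurePreserving

lemma vol_singleton (x : T) : (volume : Measure T) {x} = 0 := by
  have h := AddCircle.volume_closedBall (T := (1 : ℝ)) (x := x) 0
  rw [Metric.closedBall_zero] at h
  rw [h]; simp

/-- **Bootstrap.** A common minorant for all atomless invariant measures forces rigidity. -/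
theorem bootstrap {p q : ℕ} (hp : 1 ≤ p) (hq : 1 ≤ q) {c : ℝ} (hc : 0 < c)
    (h : ∀ μ : Measure T, InvM p q μ → (∀ x, μ {x} = 0) →
      ENNReal.ofReal c • (volume : Measure T) ≤ μ) : Furst p q := by
  have hvolI : InvM p q (volume : Measure T) := ⟨vol_prob, pres_volume hp, pres_volume hq⟩
  have hvol0 : ∀ x : T, (volume : Measure T) {x} = 0 := vol_singleton
  have hc1 : c ≤ 1 := by
    have h1 := h _ hvolI hvol0 univ
    simp only [Measure.smul_apply, measure_univ, smul_eq_mul, mul_one] at h1
    exact ENNReal.ofReal_le_one.1 h1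
  have hind : ∀ n : ℕ, ∀ μ : Measure T, InvM p q μ → (∀ x, μ {x} = 0) →
      ENNReal.ofReal (1 - (1 - c) ^ n) • (volume : Measure T) ≤ μ := by
    intro n
    induction n with
    | zero => intro μ _ _; simpa using Measure.zero_le μ
    | succ n ih =>
      intro μ hμ h0
      have := hμ.1
      set e : ℝ := (1 - c) ^ n with he
      have he0 : 0 ≤ e := pow_nonneg (by linarith) n
      have he1 : e ≤ 1 := pow_le_one₀ (by linarith) (by linarith)
      have hle := ih μ hμ h0
      rcases he0.eq_or_lt with he0' | he0'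
      · have e1 : (1 - c) ^ (n + 1) = 0 := by rw [pow_succ, ← he, ← he0', zero_mul]
        rw [e1]
        rw [← he0'] at hle
        exact hle
      set ρ : Measure T := ENNReal.ofReal (1 - e) • (volume : Measure T) with hρ
      have hρf : IsFiniteMeasure ρ := by
        rw [hρ]; exact Measure.smul_finite _ ENNReal.ofReal_ne_top
      have hρu : ρ univ = ENNReal.ofReal (1 - e) := by simp [hρ]
      have hρi : ∀ m : ℕ, 1 ≤ m → MeasurePreserving (fun x : T => m • x) ρ ρ := fun m hm =>
        (pres_volume hm).smul_measure _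
      have hu : (μ - ρ) univ = ENNReal.ofReal e := by
        rw [Measure.sub_apply MeasurableSet.univ hle, hρu, measure_univ, ← ENNReal.ofReal_one,
          ← ENNReal.ofReal_sub _ (by linarith)]
        congr 1; ring
      set μ' : Measure T := (ENNReal.ofReal e)⁻¹ • (μ - ρ) with hμ'
      have he2 : ENNReal.ofReal e ≠ 0 := by
        rw [Ne, ENNReal.ofReal_eq_zero, not_le]; exact he0'
      have hI : InvM p q μ' := by
        refine ⟨⟨?_⟩, (pres_sub hle hμ.2.1 (hρi p hp)).smul_measure _,
          (pres_sub hle hμ.2.2 (hρi q hq)).smul_measure _⟩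
        rw [hμ', Measure.smul_apply, hu, smul_eq_mul, ENNReal.inv_mul_cancel he2 ENNReal.ofReal_ne_top]
      have hI0 : ∀ x, μ' {x} = 0 := by
        intro x
        rw [hμ', Measure.smul_apply, Measure.sub_apply (measurableSet_singleton x) hle, h0 x]
        simp
      have hkey := h μ' hI hI0
      have hback : μ = ENNReal.ofReal e • μ' + ρ := by
        rw [hμ', smul_smul, ENNReal.mul_inv_cancel he2 ENNReal.ofReal_ne_top, one_smul,
          Measure.sub_add_cancel_of_le hle]
      have e3 : ENNReal.ofReal (1 - (1 - c) ^ (n + 1)) =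
          ENNReal.ofReal e * ENNReal.ofReal c + ENNReal.ofReal (1 - e) := by
        rw [← ENNReal.ofReal_mul he0, ← ENNReal.ofReal_add (by positivity) (by linarith)]
        congr 1
        rw [pow_succ, ← he]; ring
      rw [hback, e3, add_smul, mul_smul]
      gcongr
  intro μ hμ h0
  have := hμ.1
  have hlim : Tendsto (fun n : ℕ => ENNReal.ofReal (1 - (1 - c) ^ n)) atTop (𝓝 1) := by
    have h1 : Tendsto (fun n : ℕ => (1 - c) ^ n) atTop (𝓝 0) :=
      tendsto_pow_atTop_nhds_zero_of_lt_one (by linarith) (by linarith)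
    have h2 := ENNReal.tendsto_ofReal (h1.const_sub 1)
    simpa using h2
  have hle : (volume : Measure T) ≤ μ := by
    refine Measure.le_iff.2 fun s _ => ?_
    have h3 : Tendsto (fun n : ℕ => ENNReal.ofReal (1 - (1 - c) ^ n) * (volume : Measure T) s) atTop
        (𝓝 (1 * (volume : Measure T) s)) :=
      ENNReal.Tendsto.mul_const hlim (Or.inl one_ne_zero)
    rw [one_mul] at h3
    refine le_of_tendsto' h3 fun n => ?_
    have := hind n μ hμ h0 s
    simpa using this
  exact (Measure.eq_of_le_of_isProbabilityMeasure hle).symm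

end Pool.Agent.TH741.FU
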