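import Mathlib
import Pool.Agent.TH741.FU.Limit

/-!
Rational orbits, and the equivalences.
-/

set_option autoImplicit false

open MeasureTheory Filter Topology Set
open scoped ENNReal

namespace Pool.Agent.TH741.FU

open Pool.Agent.H847R3.XpXq (KU KU_finite KU_inv unif unif_prob unif_real unif_pres orb orb_finite
  orb_torsion inj_of_coprime)

/-- the uniform measure on a rational orbit -/
lemma orbit_measure {p q N : ℕ} (hN : 1 ≤ N) (hco : Nat.Coprime N (p * q)) {x : T}
    (hx : N • x = 0) :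
    ∃ μ : Measure T, InvM p q μ ∧ 0 < (orb p q x).ncard ∧ ∀ B : Set T, MeasurableSet B →
      μ.real B * (orb p q x).ncard = (orb p q x ∩ B).ncard := by
  classical
  have hcop : Nat.Coprime p N := (Nat.Coprime.coprime_mul_right_right hco).symm
  have hcoq : Nat.Coprime q N := (Nat.Coprime.coprime_mul_left_right hco).symm
  have hfin := orb_finite (p := p) (q := q) hN hx
  set O : Finset T := hfin.toFinset with hO
  have hmem : ∀ y, y ∈ O ↔ y ∈ orb p q x := fun y => hfin.mem_toFinset
  have hxO : x ∈ O := (hmem x).2 ⟨0, 0, by simp⟩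
  have hOne : O.Nonempty := ⟨x, hxO⟩
  have htor : ∀ y ∈ O, N • y = 0 := fun y hy => orb_torsion hx ((hmem y).1 hy)
  have hμ := unif_prob hOne
  have h1 : MeasurePreserving (fun x : T => p • x) (unif O) (unif O) := by
    refine unif_pres ?_ fun y hy z hz h => inj_of_coprime hcop (htor y hy) (htor z hz) h
    intro y hy
    obtain ⟨i, j, rfl⟩ := (hmem y).1 hy
    exact (hmem _).2 ⟨i + 1, j, by rw [← mul_nsmul', pow_succ']; ring_nf⟩
  have h2 : MeasurePreserving (fun x : T => q • x) (unif O) (unif O) := by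
    refine unif_pres ?_ fun y hy z hz h => inj_of_coprime hcoq (htor y hy) (htor z hz) h
    intro y hy
    obtain ⟨i, j, rfl⟩ := (hmem y).1 hy
    exact (hmem _).2 ⟨i, j + 1, by rw [← mul_nsmul', pow_succ']; ring_nf⟩
  have hcard : (orb p q x).ncard = O.card := Set.ncard_eq_toFinset_card _ hfin
  have hpos : 0 < O.card := Finset.card_pos.2 hOne
  refine ⟨unif O, ⟨hμ, h1, h2⟩, by rw [hcard]; exact hpos, fun B hB => ?_⟩
  rw [unif_real O hB, hcard]
  have h3 : orb p q x ∩ B = ((O.filter (· ∈ B) : Finset T) : Set T) := by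
    ext y
    simp [hmem]
  rw [h3, Set.ncard_coe_finset]
  have : (O.card : ℝ) ≠ 0 := by exact_mod_cast hpos.ne'
  field_simp

/-- rational orbits of large order -/
theorem orbits_large {p q : ℕ} {c : ℝ} {U : Set T} (hU : IsOpen U) {F : Set T} (hF : F.Finite)
    (h : ∀ μ : Measure T, InvM p q μ → c * (volume : Measure T).real U * μ.real Fᶜ ≤ μ.real U) :
    ∃ N₀ : ℕ, ∀ N : ℕ, N₀ ≤ N → Nat.Coprime N (p * q) → ∀ x : T, addOrderOf x = N →
      c * (volume : Measure T).real U * (orb p q x).ncard ≤ (orb p q x ∩ U).ncard := by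
  classical
  refine ⟨(∑ y ∈ hF.toFinset, addOrderOf y) + 1, fun N hN hco x hx => ?_⟩
  have hN1 : 1 ≤ N := by omega
  have hNx : N • x = 0 := by rw [← hx]; exact addOrderOf_nsmul_eq_zero x
  obtain ⟨μ, hμ, hpos, hval⟩ := orbit_measure (p := p) (q := q) hN1 hco hNx
  have := hμ.1
  have hdisj : orb p q x ∩ F = ∅ := by
    ext y
    simp only [mem_inter_iff, mem_empty_iff_false, iff_false, not_and]
    rintro ⟨i, j, rfl⟩ hyF
    have h1 : addOrderOf ((p ^ i * q ^ j) • x) = N := by
      rw [Nat.Coprime.addOrderOf_nsmul, hx]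
      rw [hx]
      exact (Nat.Coprime.mul_right ((Nat.Coprime.coprime_mul_right_right hco).pow_right i)
        ((Nat.Coprime.coprime_mul_left_right hco).pow_right j))
    have h2 : addOrderOf ((p ^ i * q ^ j) • x) ≤ ∑ y ∈ hF.toFinset, addOrderOf y :=
      Finset.single_le_sum (f := fun y : T => addOrderOf y) (fun _ _ => Nat.zero_le _)
        (hF.mem_toFinset.2 hyF)
    omega
  have h3 : μ.real F = 0 := by
    have h4 := hval F hF.measurableSet
    rw [hdisj, Set.ncard_empty] at h4
    have h5 : ((orb p q x).ncard : ℝ) ≠ 0 := by exact_mod_cast hpos.ne'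
    simpa [h5] using h4
  have h6 : μ.real Fᶜ = 1 := by
    rw [measureReal_compl hF.measurableSet, h3]
    simp
  have h7 := h μ hμ
  rw [h6, mul_one] at h7
  rw [← hval U hU.measurableSet]
  gcongr

/-- all rational orbits which meet `U` -/
theorem orbits_all {p q : ℕ} {c : ℝ} {U : Set T} (hU : IsOpen U)
    (h : ∀ μ : Measure T, InvM p q μ → c * μ.real (KU p q U)ᶜ ≤ μ.real U) :
    ∀ N : ℕ, 1 ≤ N → Nat.Coprime N (p * q) → ∀ x : T, N • x = 0 →
      (∃ i j : ℕ, (p ^ i * q ^ j) • x ∈ U) →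
      c * (orb p q x).ncard ≤ (orb p q x ∩ U).ncard := by
  intro N hN hco x hx hxU
  obtain ⟨μ, hμ, hpos, hval⟩ := orbit_measure (p := p) (q := q) hN hco hx
  have := hμ.1
  obtain ⟨i₀, j₀, hij₀⟩ := hxU
  -- no point of the orbit lies in `KU`
  have hdisj : orb p q x ∩ KU p q U = ∅ := by
    ext y
    simp only [mem_inter_iff, mem_empty_iff_false, iff_false, not_and]
    rintro ⟨i, j, rfl⟩ hyK
    -- return to `x`
    have hφ : 0 < N.totient := Nat.totient_pos.2 hN
    have hcp : Nat.Coprime p N := (Nat.Coprime.coprime_mul_right_right hco).symm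
    have hcq : Nat.Coprime q N := (Nat.Coprime.coprime_mul_left_right hco).symm
    have hone : ∀ a : ℕ, Nat.Coprime a N → ∀ k : ℕ, a ^ (N.totient * k) ≡ 1 [MOD N] := by
      intro a ha k
      rw [pow_mul]
      have := (Nat.ModEq.pow_totient ha).pow k
      rwa [one_pow] at this
    have hmod : ∀ m n : ℕ, m ≡ n [MOD N] → m • x = n • x := by
      intro m n hmn
      have h1 : (N : ℤ) ∣ (n : ℤ) - m := (Nat.modEq_iff_dvd).1 hmn
      obtain ⟨k, hk⟩ := h1
      have h2 : ((n : ℤ) - m) • x = 0 := by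
        rw [hk, mul_comm, mul_zsmul, natCast_zsmul, hx, zsmul_zero]
      rw [sub_zsmul, natCast_zsmul, natCast_zsmul, ← sub_eq_add_neg, sub_eq_zero] at h2
      exact h2.symm
    have hret := hyK (N.totient * i - i + i₀) (N.totient * j - j + j₀)
    apply hret
    rw [← mul_nsmul']
    have hi : i ≤ N.totient * i := Nat.le_mul_of_pos_left i hφ
    have hj : j ≤ N.totient * j := Nat.le_mul_of_pos_left j hφ
    have e : p ^ (N.totient * i - i + i₀) * q ^ (N.totient * j - j + j₀) * (p ^ i * q ^ j) =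
        (p ^ (N.totient * i) * q ^ (N.totient * j)) * (p ^ i₀ * q ^ j₀) := by
      have e1 : p ^ (N.totient * i) = p ^ (N.totient * i - i) * p ^ i := by
        rw [← pow_add]; congr 1; omega
      have e2 : q ^ (N.totient * j) = q ^ (N.totient * j - j) * q ^ j := by
        rw [← pow_add]; congr 1; omega
      rw [e1, e2, pow_add, pow_add]; ring
    rw [e]
    have h3 : (p ^ (N.totient * i) * q ^ (N.totient * j)) * (p ^ i₀ * q ^ j₀) ≡
        (1 * 1) * (p ^ i₀ * q ^ j₀) [MOD N] :=
      ((hone p hcp i).mul (hone q hcq j)).mul_right _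
    rw [one_mul, one_mul] at h3
    rw [hmod _ _ h3]
    exact hij₀
  have hm := measurableSet_KU p q hU
  have h3 : μ.real (KU p q U) = 0 := by
    have h4 := hval _ hm
    rw [hdisj, Set.ncard_empty] at h4
    have h5 : ((orb p q x).ncard : ℝ) ≠ 0 := by exact_mod_cast hpos.ne'
    simpa [h5] using h4
  have h6 : μ.real (KU p q U)ᶜ = 1 := by
    rw [measureReal_compl hm, h3]
    simp
  have h7 := h μ hμ
  rw [h6, mul_one] at h7
  rw [← hval U hU.measurableSet]
  gcongr

/-- from any closed far set to the standard one -/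
lemma far_of_far {p q : ℕ} (hp : 2 ≤ p) {r c : ℝ} (hr : 0 < r)
    (h : ∀ μ : Measure T, InvM p q μ → (∀ x, μ {x} = 0) → c ≤ μ.real {x | r ≤ ‖x‖}) :
    ∀ μ : Measure T, InvM p q μ → (∀ x, μ {x} = 0) → r * c ≤ μ.real (A p) := by
  intro μ hμ h0
  have := hμ.1
  have h1 := h μ hμ h0
  have h2 := mul_meas_ge_le_integral_of_nonneg (μ := μ) (f := fun x : T => ‖x‖)
    (Eventually.of_forall fun x => norm_nonneg x) (integrable_norm μ) r
  have h3 := mean_le hp hμ.2.1
  have h4 : r * c ≤ r * μ.real {x : T | r ≤ ‖x‖} := by gcongr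
  exact (h4.trans h2).trans h3

lemma vol_A_pos {p : ℕ} (hp : 2 ≤ p) : 0 < (volume : Measure T).real (A p) := by
  have hpR : (2 : ℝ) ≤ p := by exact_mod_cast hp
  have hne : (A p).Nonempty := by
    refine ⟨((1 / 2 : ℝ) : T), ?_⟩
    have h2 : ‖((1 / 2 : ℝ) : T)‖ = |(1 / 2 : ℝ)| := by
      rw [AddCircle.norm_coe_eq_abs_iff (1 : ℝ) one_ne_zero]
      norm_num
    show 1 / (2 * (p : ℝ)) < ‖((1 / 2 : ℝ) : T)‖
    rw [h2, abs_of_pos (by norm_num)]
    apply one_div_lt_one_div_of_lt (by norm_num)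
    linarith
  rw [measureReal_def]
  exact ENNReal.toReal_pos ((isOpen_A p).measure_pos volume hne).ne' (measure_ne_top _ _)

lemma A_nonempty {p : ℕ} (hp : 2 ≤ p) : (A p).Nonempty := by
  by_contra h
  rw [not_nonempty_iff_eq_empty] at h
  have := vol_A_pos hp
  rw [h] at this
  simp at this

end Pool.Agent.TH741.FU
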