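import Mathlib
import Pool.Agent.TH741.FU.Orbits

/-!
If the atomless invariant measures accumulate at the Dirac mass at `0`, they are weak-* dense among
all invariant measures.
-/

set_option autoImplicit false

open MeasureTheory Filter Topology Set
open scoped ENNReal BoundedContinuousFunction

namespace Pool.Agent.TH741.FU

lemma conv_pres {n : ℕ} {ρ ν : Measure T} [IsProbabilityMeasure ρ] [IsProbabilityMeasure ν]
    (h1 : MeasurePreserving (fun x : T => n • x) ρ ρ)
    (h2 : MeasurePreserving (fun x : T => n • x) ν ν) :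
    MeasurePreserving (fun x : T => n • x) (ρ ∗ ν) (ρ ∗ ν) := by
  refine ⟨h1.measurable, ?_⟩
  have h3 := Measure.map_conv_addMonoidHom (μ := ρ) (ν := ν) (nsmulAddMonoidHom (α := T) n)
    h1.measurable
  have e : (⇑(nsmulAddMonoidHom (α := T) n)) = fun x : T => n • x := rfl
  rw [e, h1.map_eq, h2.map_eq] at h3
  exact h3

lemma conv_inv {p q : ℕ} {ρ ν : Measure T} (h1 : InvM p q ρ) (h2 : InvM p q ν) :
    InvM p q (ρ ∗ ν) := by
  have := h1.1
  have := h2.1
  exact ⟨inferInstance, conv_pres h1.2.1 h2.2.1, conv_pres h1.2.2 h2.2.2⟩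

lemma conv_atomless {ρ ν : Measure T} [IsProbabilityMeasure ρ] [IsProbabilityMeasure ν]
    (h : ∀ x, ν {x} = 0) (x : T) : (ρ ∗ ν) {x} = 0 := by
  rw [Measure.conv, Measure.map_apply measurable_add (measurableSet_singleton x),
    Measure.prod_apply (measurable_add (measurableSet_singleton x))]
  have e : ∀ a : T, ν (Prod.mk a ⁻¹' ((fun z : T × T => z.1 + z.2) ⁻¹' {x})) = 0 := by
    intro a
    have : Prod.mk a ⁻¹' ((fun z : T × T => z.1 + z.2) ⁻¹' {x}) = {x - a} := by
      ext b
      simp only [mem_preimage, mem_singleton_iff]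
      constructor
      · intro h; rw [← h]; abel
      · intro h; rw [h]; abel
    rw [this, h]
  simp [e]

/-- the convolution as a probability measure -/
noncomputable def convPM (ρ : ProbabilityMeasure T) (ν : Measure T) [IsProbabilityMeasure ν] :
    ProbabilityMeasure T :=
  ⟨(ρ : Measure T) ∗ ν, inferInstance⟩

/-- convolution with a measure close to the Dirac mass at `0` is weakly close to the identity -/
lemma tendsto_conv (ρ : ProbabilityMeasure T) (ν : ℕ → Measure T)
    [hν : ∀ j, IsProbabilityMeasure (ν j)]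
    (h : ∀ r : ℝ, 0 < r → Tendsto (fun j => (ν j).real {x | r ≤ ‖x‖}) atTop (𝓝 0)) :
    Tendsto (fun j => convPM ρ (ν j)) atTop (𝓝 ρ) := by
  rw [ProbabilityMeasure.tendsto_iff_forall_integral_tendsto]
  intro f
  rw [Metric.tendsto_atTop]
  intro ε hε
  have hfc : UniformContinuous f :=
    CompactSpace.uniformContinuous_of_continuous f.continuous
  obtain ⟨r, hr, hfr⟩ := Metric.uniformContinuous_iff.1 hfc (ε / 4) (by positivity)
  set M : ℝ := ‖f‖ with hM
  have hM0 : 0 ≤ M := norm_nonneg f
  obtain ⟨J, hJ⟩ := Metric.tendsto_atTop.1 (h r hr) (ε / (4 * (M + 1))) (by positivity)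
  refine ⟨J, fun j hj => ?_⟩
  have hB : (ν j).real {x : T | r ≤ ‖x‖} < ε / (4 * (M + 1)) := by
    have := hJ j hj
    rw [Real.dist_eq, sub_zero] at this
    exact (le_abs_self _).trans_lt this
  show dist (∫ x, f x ∂((ρ : Measure T) ∗ ν j)) (∫ x, f x ∂(ρ : Measure T)) < ε
  have hint : Integrable f ((ρ : Measure T) ∗ ν j) := f.integrable _
  rw [integral_conv hint, Real.dist_eq]
  have hmeasB : MeasurableSet {x : T | r ≤ ‖x‖} :=
    (isClosed_le continuous_const continuous_norm).measurableSet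
  have hpt : ∀ x : T, ‖∫ y, f (x + y) ∂(ν j) - f x‖ ≤ ε / 2 + ε / 4 := by
    intro x
    have hi1 : Integrable (fun y => f (x + y)) (ν j) :=
      (f.compContinuous ⟨fun y => x + y, continuous_const.add continuous_id⟩).integrable _
    have h1 : ∫ y, f (x + y) ∂(ν j) - f x = ∫ y, (f (x + y) - f x) ∂(ν j) := by
      rw [integral_sub hi1 (integrable_const _)]
      simp
    rw [h1]
    have h2 : ∀ y : T, ‖f (x + y) - f x‖ ≤
        ε / 4 + 2 * M * {x : T | r ≤ ‖x‖}.indicator (fun _ => (1 : ℝ)) y := by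
      intro y
      by_cases hy : r ≤ ‖y‖
      · have hy' : y ∈ {x : T | r ≤ ‖x‖} := hy
        rw [indicator_of_mem hy']
        have h3 : ‖f (x + y) - f x‖ ≤ M + M :=
          (norm_sub_le _ _).trans (add_le_add (f.norm_coe_le_norm _) (f.norm_coe_le_norm _))
        linarith
      · have hy' : y ∉ {x : T | r ≤ ‖x‖} := hy
        rw [indicator_of_notMem hy', mul_zero, add_zero]
        have h3 : dist (x + y) x < r := by
          rw [dist_eq_norm]
          simpa using not_le.1 hy
        have h4 := hfr h3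
        rw [dist_eq_norm] at h4
        exact h4.le
    have hind : Integrable (fun y : T => {x : T | r ≤ ‖x‖}.indicator (fun _ => (1 : ℝ)) y) (ν j) :=
      (integrable_const (1 : ℝ)).indicator hmeasB
    calc ‖∫ y, (f (x + y) - f x) ∂(ν j)‖
        ≤ ∫ y, (ε / 4 + 2 * M * {x : T | r ≤ ‖x‖}.indicator (fun _ => (1 : ℝ)) y) ∂(ν j) :=
          norm_integral_le_of_norm_le ((integrable_const _).add (hind.const_mul _))
            (Eventually.of_forall h2)
      _ = ε / 4 + 2 * M * (ν j).real {x : T | r ≤ ‖x‖} := by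
          rw [integral_add (integrable_const _) (hind.const_mul _), integral_const_mul,
            integral_indicator_const _ hmeasB]
          simp
      _ ≤ ε / 4 + 2 * M * (ε / (4 * (M + 1))) := by gcongr
      _ ≤ ε / 2 + ε / 4 := by
          have h5 : 2 * M * (ε / (4 * (M + 1))) ≤ ε / 2 := by
            rw [mul_div_assoc', div_le_iff₀ (by positivity)]
            nlinarith
          linarith
  have hi2 : Integrable (fun x => ∫ y, f (x + y) ∂(ν j)) (ρ : Measure T) := by
    have h6 := (integrable_map_measure (μ := (ρ : Measure T).prod (ν j)) (f := fun z : T × T => z.1 + z.2)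
      (g := f) f.continuous.aestronglyMeasurable measurable_add.aemeasurable).1 hint
    exact h6.integral_prod_left
  rw [← integral_sub hi2 (f.integrable _)]
  have h7 : ‖∫ x, (∫ y, f (x + y) ∂(ν j) - f x) ∂(ρ : Measure T)‖ ≤
      (ε / 2 + ε / 4) * (ρ : Measure T).real univ :=
    norm_integral_le_of_norm_le_const (Eventually.of_forall hpt)
  rw [Real.norm_eq_abs] at h7
  refine h7.trans_lt ?_
  simp only [probReal_univ, mul_one]
  linarith

/-- the atomless invariant measures -/
def AtomlessInv (p q : ℕ) : Set (ProbabilityMeasure T) :=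
  {ν | InvM p q (ν : Measure T) ∧ ∀ x, (ν : Measure T) {x} = 0}

theorem not_dense_of_far {p q : ℕ} {r c : ℝ} (hr : 0 < r) (hc : 0 < c)
    (h : ∀ μ : Measure T, InvM p q μ → (∀ x, μ {x} = 0) → c ≤ μ.real {x | r ≤ ‖x‖}) :
    ∃ ρ : ProbabilityMeasure T, InvM p q (ρ : Measure T) ∧ ρ ∉ closure (AtomlessInv p q) := by
  have hm : ∀ n : ℕ, Measurable fun x : T => n • x := fun n => (continuous_const_smul n).measurable
  have hd : ∀ n : ℕ, MeasurePreserving (fun x : T => n • x) (Measure.dirac (0 : T))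
      (Measure.dirac 0) := by
    intro n
    refine ⟨hm n, ?_⟩
    rw [Measure.map_dirac' (hm n)]
    simp
  have hdp : IsProbabilityMeasure (Measure.dirac (0 : T)) := inferInstance
  set D : ProbabilityMeasure T := ⟨Measure.dirac 0, hdp⟩ with hD
  refine ⟨D, ⟨hdp, hd p, hd q⟩, fun hcl => ?_⟩
  obtain ⟨𝒰, h𝒰, hlim⟩ := mem_closure_iff_ultrafilter.1 hcl
  have hlim' : Tendsto (id : ProbabilityMeasure T → ProbabilityMeasure T) (𝒰 : Filter _) (𝓝 D) :=
    tendsto_id'.2 hlim
  have hclosed : IsClosed {x : T | r ≤ ‖x‖} := isClosed_le continuous_const continuous_norm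
  have h1 := ProbabilityMeasure.limsup_measure_closed_le_of_tendsto (L := (𝒰 : Filter _))
    (μs := id) hlim' hclosed
  have h2 : ENNReal.ofReal c ≤
      (𝒰 : Filter _).limsup fun i : ProbabilityMeasure T => (i : Measure T) {x : T | r ≤ ‖x‖} := by
    refine le_limsup_of_frequently_le ?_
    refine Eventually.frequently ?_
    filter_upwards [h𝒰] with μ hμ
    exact ENNReal.ofReal_le_of_le_toReal (h μ hμ.1 hμ.2)
  have h3 := h2.trans h1
  have h4 : (Measure.dirac (0 : T)) {x : T | r ≤ ‖x‖} = 0 := by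
    rw [Measure.dirac_apply' _ hclosed.measurableSet, indicator_of_notMem]
    simp only [mem_setOf_eq, norm_zero, not_le]
    exact hr
  have h5 : ENNReal.ofReal c ≤ 0 := by
    rw [← h4]; exact h3
  rw [nonpos_iff_eq_zero, ENNReal.ofReal_eq_zero] at h5
  linarith

theorem far_of_not_dense {p q : ℕ} (hnd : ∃ ρ : ProbabilityMeasure T, InvM p q (ρ : Measure T) ∧
      ρ ∉ closure (AtomlessInv p q)) :
    ∃ r c : ℝ, 0 < r ∧ 0 < c ∧ ∀ μ : Measure T, InvM p q μ → (∀ x, μ {x} = 0) →
      c ≤ μ.real {x | r ≤ ‖x‖} := by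
  by_contra hcon
  push Not at hcon
  obtain ⟨ρ, hρ, hρcl⟩ := hnd
  apply hρcl
  have h1 : ∀ j : ℕ, ∃ μ : Measure T, InvM p q μ ∧ (∀ x, μ {x} = 0) ∧
      μ.real {x | 1 / ((j : ℝ) + 1) ≤ ‖x‖} < 1 / ((j : ℝ) + 1) := fun j =>
    hcon _ _ (by positivity) (by positivity)
  choose ν hν hν0 hνr using h1
  have hprob : ∀ j, IsProbabilityMeasure (ν j) := fun j => (hν j).1
  have hlim : ∀ r : ℝ, 0 < r → Tendsto (fun j => (ν j).real {x : T | r ≤ ‖x‖}) atTop (𝓝 0) := by
    intro r hr
    refine squeeze_zero' (Eventually.of_forall fun j => measureReal_nonneg) ?_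
      tendsto_one_div_add_atTop_nhds_zero_nat
    have h2 := tendsto_one_div_add_atTop_nhds_zero_nat (𝕜 := ℝ)
    filter_upwards [h2.eventually (gt_mem_nhds hr)] with j hj
    refine le_trans (measureReal_mono ?_) (hνr j).le
    intro x (hx : r ≤ ‖x‖)
    exact hj.le.trans hx
  refine mem_closure_of_tendsto (tendsto_conv ρ ν hlim) (Eventually.of_forall fun j => ?_)
  exact ⟨conv_inv hρ (hν j), conv_atomless (hν0 j)⟩

end Pool.Agent.TH741.FU
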